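import Pool.Agent.R474.CE.Stm

/-! # CE-SUF: sufficiency (helper466) -/

set_option autoImplicit false

namespace Pool.Agent.R474.CE

namespace SUF

theorem emb_of_win {x z : Str} {p : ℕ} (hp : p + x.n ≤ z.n) (h : Win x.n z p x 0) : Emb x z := by
  refine ⟨p, hp, fun i hi j hj => ?_⟩
  have := h i hi j hj
  simpa using this.symm

theorem emb_trans {x y z : Str} (h1 : Emb x y) (h2 : Emb y z) : Emb x z := by
  obtain ⟨k, hk, he⟩ := h1
  obtain ⟨l, hl, hf⟩ := h2
  refine ⟨l + k, by omega, fun i hi j hj => ?_⟩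
  rw [he i hi j hj, hf (k + i) (by omega) (k + j) (by omega)]
  congr 1 <;> omega

/-- window of size `b` of `x` at `k` -/
def wd (x : Str) (k b : ℕ) : Str := ⟨b, fun i j => x.R (k + i) (k + j)⟩

/-- (a) both sizes at least `b` -/
theorem big (hR : S_RES) (hG : S_GLUE) {ok : Bool → Bool → Bool} {B : Set Str} {b : ℕ}
    (hb : 1 ≤ b) (h10 : ok true false = true) (hB : ∀ y ∈ B, y.n ≤ b) (hc : CritA ok B b)
    {x y : Str} (hx : x ∈ Av (Kof ok) B) (hy : y ∈ Av (Kof ok) B) (hxb : b ≤ x.n)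
    (hyb : b ≤ y.n) : ∃ z ∈ Av (Kof ok) B, Emb x z ∧ Emb y z := by
  have hu : wd x (x.n - b) b ∈ Av (Kof ok) B := (hR ok B).2 x hx _ _ (by omega)
  have hv : wd y 0 b ∈ Av (Kof ok) B := (hR ok B).2 y hy _ _ (by omega)
  obtain ⟨z, hz, _, hzb, hz0, hz1⟩ := hc.2 _ hu _ hv rfl rfl
  -- glue x and z
  obtain ⟨g, hg, hgn, hg1, hg2⟩ := hG ok B b hb h10 hB x hx z hz hxb hzb (by
    intro s hs t ht
    have := hz0 s hs t ht
    rw [this]
    unfold wd
    simp)
  -- the last window of g is the first window of y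
  have hgb : b ≤ g.n := by omega
  obtain ⟨f, hf, hfn, hf1, hf2⟩ := hG ok B b hb h10 hB g hg y hy hgb hyb (by
    intro s hs t ht
    have e1 := hg2 (z.n - b + s) (by omega) (z.n - b + t) (by omega)
    have q1 : g.n - b + s = x.n - b + (z.n - b + s) := by omega
    have q2 : g.n - b + t = x.n - b + (z.n - b + t) := by omega
    rw [q1, q2, e1]
    have e2 := hz1 s hs t ht
    rw [Nat.zero_add, Nat.zero_add, e2]
    unfold wd
    simp)
  refine ⟨f, hf, ?_, ?_⟩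
  · refine emb_trans (emb_of_win (p := 0) (by omega) hg1) (emb_of_win (p := 0) (by omega) hf1)
  · exact emb_of_win (p := g.n - b) (by omega) hf2

/-- (b) one small size -/
theorem mixed (hR : S_RES) (hG : S_GLUE) {ok : Bool → Bool → Bool} {B : Set Str} {b : ℕ}
    (hb : 1 ≤ b) (h10 : ok true false = true) (hB : ∀ y ∈ B, y.n ≤ b) (hc : CritA ok B b)
    {x y : Str} (hx : x ∈ Av (Kof ok) B) (hy : y ∈ Av (Kof ok) B) (hxb : x.n ≤ b)
    (hyb : b ≤ y.n) : ∃ z ∈ Av (Kof ok) B, Emb x z ∧ Emb y z := by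
  have hv : wd y 0 b ∈ Av (Kof ok) B := (hR ok B).2 y hy _ _ (by omega)
  obtain ⟨z1, hz1, _, he1, he2⟩ := hc.1 x hx _ hv hxb (le_refl b)
  have hz1b : b ≤ z1.n := by
    obtain ⟨k, hk, _⟩ := he2
    have : k + b ≤ z1.n := hk
    omega
  obtain ⟨z, hz, h1, h2⟩ := big hR hG hb h10 hB hc hz1 hy hz1b hyb
  exact ⟨z, hz, emb_trans he1 h1, h2⟩

end SUF

open SUF

theorem SUF : S_RES → S_GLUE → S_SUF := by
  intro hR hG ok B b hb h10 _ hB hc x hx y hy
  by_cases h1 : b ≤ x.n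
  · by_cases h2 : b ≤ y.n
    · exact big hR hG hb h10 hB hc hx hy h1 h2
    · obtain ⟨z, hz, a1, a2⟩ := mixed hR hG hb h10 hB hc hy hx (by omega) h1
      exact ⟨z, hz, a2, a1⟩
  · by_cases h2 : b ≤ y.n
    · exact mixed hR hG hb h10 hB hc hx hy (by omega) h2
    · obtain ⟨z, hz, _, a1, a2⟩ := hc.1 x hx y hy (by omega) (by omega)
      exact ⟨z, hz, a1, a2⟩

end Pool.Agent.R474.CE
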